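import Pool.Agent.H76.DW.Rel

/-!
# DW.Chn : chains of block systems
-/

open Module Equiv Equiv.Perm
open Pool.Agent.H7.Artin Pool.Agent.H58.S2 Pool.Agent.H72.HP Pool.Agent.H7.HB Pool.Agent.H76.TD Pool.Agent.H28.TD Pool.Agent.H76.WR Pool.Agent.H72.OD Pool.Agent.H95.TB
open Pool.Agent.H43.GB Pool.Agent.H95.GB

namespace Pool.Agent.H76.DW

set_option linter.unusedSectionVars false

theorem nStep_comap {G Q : Type} [Group G] [Group Q] (j : G →* Q) {S H : Subgroup Q} (h : NStep S H) : NStep (S.comap j) (H.comap j) := by
  obtain ⟨hle, hn, hs⟩ := h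
  let φ : H.comap j →* H :=
    { toFun := fun x => ⟨j x, x.2⟩
      map_one' := Subtype.ext (map_one j)
      map_mul' := fun x y => Subtype.ext (map_mul j (x : G) (y : G)) }
  have hφ : ∀ x : H.comap j, x ∈ (S.comap j).subgroupOf (H.comap j) ↔ φ x ∈ S.subgroupOf H := fun x => Iff.rfl
  have hn' : ((S.comap j).subgroupOf (H.comap j)).Normal := ⟨fun s hs' h => by
    rw [hφ, map_mul, map_mul, map_inv]
    exact hn.conj_mem _ ((hφ s).1 hs') _⟩
  refine ⟨fun x hx => hle hx, hn', ?_⟩
  let ψ : (H.comap j ⧸ (S.comap j).subgroupOf (H.comap j)) →* H ⧸ S.subgroupOf H :=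
    QuotientGroup.lift _ ((QuotientGroup.mk' (S.subgroupOf H)).comp φ) fun x hx => (QuotientGroup.eq_one_iff _).2 ((hφ x).1 hx)
  refine hs.of_injective ψ ?_
  rw [injective_iff_map_eq_one]
  intro x hx
  obtain ⟨x, rfl⟩ := QuotientGroup.mk_surjective x
  exact (QuotientGroup.eq_one_iff x).2 ((hφ x).2 ((QuotientGroup.eq_one_iff (φ x)).1 hx))

theorem fTower_comap {G Q : Type} [Group G] [Finite G] [Group Q] [Finite Q] (j : G →* Q) {S H : Subgroup Q} (h : Relation.ReflTransGen FStep S H) :
    Relation.ReflTransGen FStep (S.comap j) (H.comap j) := by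
  induction h with
  | refl => exact Relation.ReflTransGen.refl
  | tail _ hs ih =>
    refine ih.tail ?_
    rcases hs with hs | hs
    · exact Or.inl (estep_comap j hs)
    · exact Or.inr (nStep_comap j hs)

/-- chains of steps from the stabiliser of the point through the stabilisers of its blocks; the last equivalence relation is the finest -/
def Thr {G X : Type} [Group G] (P : G →* Perm X) (x : X) : List (Setoid X) → Subgroup G → Prop
  | [], S => Relation.ReflTransGen FStep (fixP P x) S
  | s :: l, S => ∃ H : Subgroup G, (∀ g, g ∈ H ↔ s.r x (P g x)) ∧ Relation.ReflTransGen FStep H S ∧ Thr P x l H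

theorem thr_comap {G G' X X' : Type} [Group G] [Finite G] [Group G'] [Finite G'] {P : G →* Perm X} {P' : G' →* Perm X'} (j : G' →* G) (i : X' → X)
    (hi : Function.Injective i) (hij : ∀ g x, i (P' g x) = P (j g) (i x)) (x : X') (l : List (Setoid X)) : ∀ S : Subgroup G, Thr P (i x) l S →
    Thr P' x (l.map fun s => s.comap i) (S.comap j) := by
  induction l with
  | nil =>
    intro S h
    have h1 := fTower_comap j h
    have h2 : (fixP P (i x)).comap j = fixP P' x := by
      ext g
      rw [Subgroup.mem_comap, mem_fixP, mem_fixP, ← hij]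
      exact hi.eq_iff
    rwa [h2] at h1
  | cons s l ih =>
    rintro S ⟨H, h1, h2, h3⟩
    refine ⟨H.comap j, fun g => ?_, fTower_comap j h2, ih H h3⟩
    rw [Subgroup.mem_comap, h1, ← hij]
    rfl

/-- the set of the relations -/
def rels {X : Type} (l : List (Setoid X)) : Set (X → X → Prop) := {R | ∃ s ∈ l, R = s.r}

/-- the action on the blocks -/
def qact {G X : Type} [Group G] (P : G →* Perm X) (s : Setoid X) (h : ∀ g x y, s.r x y → s.r (P g x) (P g y)) : G →* Perm (Quotient s) where
  toFun g :=
    { toFun := Quotient.map (P g) fun x y hxy => h g x y hxy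
      invFun := Quotient.map (P g⁻¹) fun x y hxy => h g⁻¹ x y hxy
      left_inv := by
        intro o
        refine Quotient.inductionOn o fun x => ?_
        change (Quotient.mk s (P g⁻¹ (P g x))) = _
        rw [← Perm.mul_apply, ← map_mul, inv_mul_cancel, map_one, Perm.one_apply]
      right_inv := by
        intro o
        refine Quotient.inductionOn o fun x => ?_
        change (Quotient.mk s (P g (P g⁻¹ x))) = _
        rw [← Perm.mul_apply, ← map_mul, mul_inv_cancel, map_one, Perm.one_apply] }
  map_one' := Equiv.ext fun o => Quotient.inductionOn o fun x => by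
    change (Quotient.mk s (P 1 x)) = _
    rw [map_one]
    rfl
  map_mul' a b := Equiv.ext fun o => Quotient.inductionOn o fun x => by
    change (Quotient.mk s (P (a * b) x)) = Quotient.mk s (P a (P b x))
    rw [map_mul, Perm.mul_apply]

theorem qact_mk {G X : Type} [Group G] (P : G →* Perm X) (s : Setoid X) (h : ∀ g x y, s.r x y → s.r (P g x) (P g y)) (g : G) (x : X) :
    qact P s h g (Quotient.mk s x) = Quotient.mk s (P g x) := rfl

/-- **Chains of block systems.**  The first equivalence relation of the list is the coarsest. -/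
theorem hgr_chain (n : ℕ) : ∀ {G X : Type} [Group G] [Finite G] [Fintype X] (P : G →* Perm X) (l : List (Setoid X)), l.length = n →
    l.Pairwise (fun s t => ∀ x y, t.r x y → s.r x y) → (∀ s ∈ l, ∀ g x y, s.r x y → s.r (P g x) (P g y)) → (∀ x, Thr P x l ⊤) → HGR (rels l) P := by
  classical
  induction n with
  | zero =>
    intro G X _ _ _ P l hl _ _ hx
    obtain rfl := List.length_eq_zero_iff.1 hl
    have h1 : rels ([] : List (Setoid X)) = ∅ := by
      refine Set.eq_empty_of_forall_notMem ?_
      rintro R ⟨s, hs, _⟩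
      exact (List.not_mem_nil hs).elim
    rw [h1]
    exact hgr_empty (hg_towers Pool.Agent.H76.GB.wreathGB monoAllPi P hx)
  | succ n ih =>
    intro G X _ _ _ P l hl hpw hinv hx
    obtain ⟨s, l, rfl⟩ := List.exists_cons_of_length_eq_add_one hl
    rw [List.length_cons, Nat.add_right_cancel_iff] at hl
    obtain ⟨hs, hpw⟩ := List.pairwise_cons.1 hpw
    let _ : Fintype (Quotient s) := Fintype.ofFinite _
    have hsi : ∀ g x y, s.r x y → s.r (P g x) (P g y) := hinv s List.mem_cons_self
    have h0 : rels (s :: l) = insert (blkR (Quotient.mk s)) (rels l) := by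
      have hb : blkR (Quotient.mk s) = s.r := by
        funext x y
        exact propext Quotient.eq
      rw [hb]
      ext R
      rw [Set.mem_insert_iff]
      constructor
      · rintro ⟨t, ht, rfl⟩
        rcases List.mem_cons.1 ht with rfl | ht
        · exact Or.inl rfl
        · exact Or.inr ⟨t, ht, rfl⟩
      · rintro (rfl | ⟨t, ht, rfl⟩)
        · exact ⟨s, List.mem_cons_self, rfl⟩
        · exact ⟨t, List.mem_cons_of_mem _ ht, rfl⟩
    rw [h0]
    refine hgr_step P (qact P s hsi) (Quotient.mk s) (fun g x => rfl) (rels l) ?_ (fun b _ => ?_) ?_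
    · rintro _ ⟨t, ht, rfl⟩ x y hxy
      exact Quotient.sound (hs t ht x y hxy)
    · let j : fixP (qact P s hsi) b →* G := (fixP (qact P s hsi) b).subtype
      have h1 : resR (rels l) (Quotient.mk s) b = rels (l.map fun t => t.comap (Subtype.val : {x // Quotient.mk s x = b} → X)) := by
        ext R
        constructor
        · rintro ⟨_, ⟨t, ht, rfl⟩, rfl⟩
          exact ⟨_, List.mem_map.2 ⟨t, ht, rfl⟩, rfl⟩
        · rintro ⟨_, ht, rfl⟩
          obtain ⟨t', ht', rfl⟩ := List.mem_map.1 ht
          exact ⟨_, ⟨t', ht', rfl⟩, rfl⟩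
      rw [h1]
      refine ih _ _ (by rw [List.length_map, hl]) ?_ ?_ fun x => ?_
      · rw [List.pairwise_map]
        exact hpw.imp fun {t t'} h (x y : {x // Quotient.mk s x = b}) (hxy : t'.r (x : X) (y : X)) => h (x : X) (y : X) hxy
      · intro t ht g x y hxy
        obtain ⟨t', ht', rfl⟩ := List.mem_map.1 ht
        exact hinv t' (List.mem_cons_of_mem _ ht') (g : G) x y hxy
      · obtain ⟨H, hH, _, h3⟩ := hx (x : X)
        have h4 := thr_comap (P' := fibH P (qact P s hsi) (Quotient.mk s) (fun g x => rfl) b) j (Subtype.val : {x // Quotient.mk s x = b} → X)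
          Subtype.val_injective (fun g y => rfl) x l H h3
        have h5 : H.comap j = ⊤ := by
          rw [eq_top_iff]
          intro g _
          rw [Subgroup.mem_comap, hH]
          have h6 : qact P s hsi (g : G) (Quotient.mk s (x : X)) = Quotient.mk s (x : X) := by
            rw [x.2]
            exact g.2
          exact s.symm (Quotient.exact h6)
        rwa [h5] at h4
    · refine hg_towers Pool.Agent.H76.GB.wreathGB monoAllPi (qact P s hsi) fun o => ?_
      obtain ⟨x, rfl⟩ := Quotient.exists_rep o
      obtain ⟨H, hH, h2, _⟩ := hx x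
      have h3 : fixP (qact P s hsi) (Quotient.mk s x) = H := by
        ext g
        rw [mem_fixP, hH, qact_mk]
        exact ⟨fun h => s.symm (Quotient.exact h), fun h => Quotient.sound (s.symm h)⟩
      rw [h3]
      exact h2

end Pool.Agent.H76.DW
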