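import Pool.Agent.H76.DW.Chn
import Pool.Agent.H72.OD.FacG

/-!
# DW.Fld : number fields, any target `W ≤ Perm X` with `W = A C(g)`, `A` the image of `Gal(L/F)`
-/

open NumberField Module Polynomial
open Pool.Agent.H7.Artin Pool.Agent.H7.HB Pool.Agent.H24.HL Pool.Agent.H72.EG Pool.Agent.H72.DK Pool.Agent.H72.SR
open Pool.Agent.H58.S2 Pool.Agent.H72.HP Pool.Agent.H28.HQ Pool.Agent.H72.HQ
open Pool.Agent.H28.QZ Pool.Agent.H28.RR Pool.Agent.H28.PS Pool.Agent.H76.TD Pool.Agent.H28.TD Pool.Agent.H72.OD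
open Equiv Equiv.Perm

namespace Pool.Agent.H76.DW

set_option linter.unusedSectionVars false

section

variable {F L : Type} [Field F] [NumberField F] [Field L] [NumberField L] [Algebra F L] [IsGalois F L] {V : Type} [AddCommGroup V] [Module ℂ V] [FiniteDimensional ℂ V]

/-- **The factored case.** -/
theorem power_target {X : Type} [Finite X] (P : Gal(L/F) →* Perm X) (hP : Function.Injective P) (W : Subgroup (Perm X)) [Fintype W] (hW : ∀ g, P g ∈ W)
    (K : IntermediateField F L) (hf : ∀ t ∈ W, ∀ g : Gal(L/K), ∃ (s : Gal(L/F)) (c : Perm X), c * P (AlgEquiv.restrictScalarsHom F g) = P (AlgEquiv.restrictScalarsHom F g) * c ∧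
      t = P s * c) (ρ : Representation ℂ Gal(L/K) V) {N : ℕ} (hN0 : 0 < N)
    (h : ∀ ι : Gal(L/K) →* W, (∀ g, ((ι g : W) : Perm X) = P (AlgEquiv.restrictScalarsHom F g)) → MonoFn ι fun g => (N : ℂ) * ρ.character g) :
    ArtinFor K L ρ ∧ HeckePower K ρ := by
  classical
  let π : Gal(L/F) →* W := P.codRestrict _ fun g => hW g
  have hπ : Function.Injective π := fun a b hab => hP (congrArg Subtype.val hab)
  let e : Gal(L/F) ≃* π.range := MonoidHom.ofInjective hπ
  let _ : Fintype π.range := Fintype.ofFinite _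
  let ι : Gal(L/K) →* π.range := e.toMonoidHom.comp (AlgEquiv.restrictScalarsHom F)
  have h1 : MonoFn (π.range.subtype.comp ι) fun g => (N : ℂ) * ρ.character g := h (π.range.subtype.comp ι) fun g => rfl
  have h2 := monoFn_factorG π.range ι h1 fun t g => by
    obtain ⟨s, c, hc, hr⟩ := hf (t : Perm X) t.2 g
    refine ⟨π s, ⟨s, rfl⟩, Subtype.ext ?_⟩
    have h4 : (P s)⁻¹ * (t : Perm X) = c := by rw [hr, inv_mul_cancel_left]
    change ((P s)⁻¹ * (t : Perm X)) * P (AlgEquiv.restrictScalarsHom F g) = P (AlgEquiv.restrictScalarsHom F g) * ((P s)⁻¹ * (t : Perm X))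
    rw [h4, hc]
  have h3 := h2.comp e.symm.toMonoidHom e.symm.injective
  have h4 : e.symm.toMonoidHom.comp ι = (AlgEquiv.restrictScalarsHom F : Gal(L/K) →* Gal(L/F)) := MonoidHom.ext fun g => e.symm_apply_apply _
  rw [h4] at h3
  obtain ⟨l, hl⟩ := h3
  have hN : 0 < π.range.index * N := Nat.mul_pos (Nat.pos_of_ne_zero Subgroup.index_ne_zero_of_finite) hN0
  obtain ⟨h5, h6⟩ := power_field K ρ hN l fun θ hθ => by
    rw [← hl θ hθ, ip_smul_right, ip_smul_right, Nat.cast_mul, mul_assoc]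
  refine ⟨h5, π.range.index * N, hN, ?_⟩
  choose i hi using fun H : Subgroup Gal(L/F) => Pool.Agent.H58.S2.exists_fixed H
  refine ⟨l.map fun x => ⟨IntermediateField.fixedField x.1, x.2.comp (i x.1).toMonoidHom⟩, fun s hs => ?_⟩
  rw [h6 s hs, List.map_map]
  congr 1
  exact List.map_congr_left fun (x : Σ H : Subgroup Gal(L/F), H →* ℂˣ) _ => hi x.1 x.2 s hs

/-- **The full case.** -/
theorem both_target {X : Type} [Finite X] (P : Gal(L/F) →* Perm X) (hP : Function.Injective P) (W : Subgroup (Perm X)) [Fintype W]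
    (hW : ∀ t ∈ W, ∃ s, P s = t) (K : IntermediateField F L) (ι : Gal(L/K) →* W) (hι : ∀ g, ((ι g : W) : Perm X) = P (AlgEquiv.restrictScalarsHom F g))
    (ρ : Representation ℂ Gal(L/K) V) (h : MonoFn ι ρ.character) : ArtinFor K L ρ ∧ Pool.Agent.H72.OD.HeckeProd K ρ := by
  classical
  let e₀ : Gal(L/F) ≃* P.range := MonoidHom.ofInjective hP
  have hle : W ≤ P.range := fun t ht => hW t ht
  let j : W →* Gal(L/F) := e₀.symm.toMonoidHom.comp (Subgroup.inclusion hle)
  have hj : Function.Injective j := e₀.symm.injective.comp (Subgroup.inclusion_injective hle)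
  have hjι : j.comp ι = AlgEquiv.restrictScalarsHom F := by
    refine MonoidHom.ext fun g => ?_
    change e₀.symm _ = _
    rw [MulEquiv.symm_apply_eq]
    exact Subtype.ext (hι g)
  refine field_prod K ρ ?_
  rw [← hjι]
  exact MonoFn.comp h j hj

end

end Pool.Agent.H76.DW
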