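import Pool.Agent.H95.GB.Main
import Pool.Agent.H76.GB.All

/-!
# DW.Rel : block systems, the target preserves relations on the blocks

`autR ℛ col`: the permutations of `X` which preserve the colours and the relations of `ℛ`.  `HGR P ℛ`: all characters of all finite groups which act through `P` are sums of
monomial characters after induction to `autR ℛ col`, for every colouring.  `hgr_step`: a block system `p`, all relations of `ℛ` refine it.
-/

open Module Equiv Equiv.Perm
open Pool.Agent.H7.Artin Pool.Agent.H58.S2 Pool.Agent.H72.HP Pool.Agent.H7.HB Pool.Agent.H76.TD Pool.Agent.H28.TD Pool.Agent.H76.WR Pool.Agent.H72.OD Pool.Agent.H95.TB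
open Pool.Agent.H43.GB Pool.Agent.H95.GB

namespace Pool.Agent.H76.DW

set_option linter.unusedSectionVars false

/-- the permutations which preserve the colours and the relations -/
def autR {X C : Type} (ℛ : Set (X → X → Prop)) (col : X → C) : Subgroup (Perm X) where
  carrier := {r | (∀ x, col (r x) = col x) ∧ ∀ R ∈ ℛ, ∀ x y, R (r x) (r y) ↔ R x y}
  mul_mem' := by
    intro a b ha hb
    refine ⟨fun x => ?_, fun R hR x y => ?_⟩
    · rw [Perm.mul_apply, ha.1, hb.1]
    · rw [Perm.mul_apply, Perm.mul_apply, ha.2 R hR, hb.2 R hR]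
  one_mem' := ⟨fun _ => rfl, fun _ _ _ _ => Iff.rfl⟩
  inv_mem' := by
    intro a ha
    refine ⟨fun x => ?_, fun R hR x y => ?_⟩
    · rw [← ha.1, ← Perm.mul_apply, mul_inv_cancel, Perm.one_apply]
    · rw [← ha.2 R hR, ← Perm.mul_apply, ← Perm.mul_apply, mul_inv_cancel, Perm.one_apply, Perm.one_apply]

noncomputable instance instFintypeAutR {X C : Type} [Fintype X] (ℛ : Set (X → X → Prop)) (col : X → C) : Fintype (autR ℛ col) := by
  classical
  exact Fintype.ofFinite _

/-- all characters are good for the target with relations -/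
def AllGdR {G X : Type} [Group G] [Fintype G] [Fintype X] (ℛ : Set (X → X → Prop)) (P : G →* Perm X) : Prop :=
  ∀ (V : Type) [AddCommGroup V] [Module ℂ V] [FiniteDimensional ℂ V] (ρ : Representation ℂ G V) (C : Type) (col : X → C) (ι : G →* autR ℛ col),
    (∀ g, ((ι g : autR ℛ col) : Perm X) = P g) → MonoFn ι ρ.character

/-- all characters of all finite groups which act through `P` are good -/
def HGR {G X : Type} [Group G] [Fintype X] (ℛ : Set (X → X → Prop)) (P : G →* Perm X) : Prop :=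
  ∀ (H : Type) [Group H] [Fintype H] (f : H →* G), AllGdR ℛ (P.comp f)

/-- the relations on the block -/
def resR {X Ω : Type} (ℛ : Set (X → X → Prop)) (p : X → Ω) (b : Ω) : Set ({x // p x = b} → {x // p x = b} → Prop) :=
  {R' | ∃ R ∈ ℛ, R' = fun x y => R x.1 y.1}

/-- the relation of the block system -/
def blkR {X Ω : Type} (p : X → Ω) : X → X → Prop := fun x y => p x = p y

section geo

variable {G X Ω : Type} [Group G] (P : G →* Perm X) (k : G →* Perm Ω) (p : X → Ω) (hp : ∀ g x, p (P g x) = k g (p x))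
  (Sb : ∀ c : Orb k, Subgroup (Perm {x // p x = rep k c}))

theorem acS_rel {R : X → X → Prop} (hR : ∀ x y, R x y → p x = p y) (hP : ∀ g x y, R (P g x) (P g y) ↔ R x y)
    (hS : ∀ c, ∀ t ∈ Sb c, ∀ x y : {x // p x = rep k c}, R (t x : {x // p x = rep k c}) (t y : {x // p x = rep k c}) ↔ R x y)
    (w : WrG (SS k p Sb) (cl k)) (x y : X) : R (acS P k p hp Sb w x) (acS P k p hp Sb w y) ↔ R x y := by
  by_cases hxy : p x = p y
  · rw [acS_eq P k p hp Sb w (z := y) (o := p x) hxy.symm rfl rfl (by rw [hxy]; exact p_be P k p hp y)]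
    unfold acS
    rw [hP, hS _ _ (w.left ((w.right : Perm Ω) (p x)) (cl k (p x))).2]
    exact hP _ _ _
  · refine iff_of_false (fun h => hxy ?_) fun h => hxy (hR x y h)
    have h1 := hR _ _ h
    rw [p_acS P k p hp Sb, p_acS P k p hp Sb] at h1
    exact (w.right : Perm Ω).injective h1

theorem acS_blk (w : WrG (SS k p Sb) (cl k)) (x y : X) : blkR p (acS P k p hp Sb w x) (acS P k p hp Sb w y) ↔ blkR p x y := by
  unfold blkR
  rw [p_acS P k p hp Sb, p_acS P k p hp Sb]
  exact (w.right : Perm Ω).injective.eq_iff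

variable {C : Type} {col : X → C} {ℛ : Set (X → X → Prop)}

/-- the homomorphism to the permutations which preserve the colours and the relations -/
noncomputable def acSR (hR : ∀ R ∈ ℛ, ∀ x y, R x y → p x = p y) (hcol : ∀ g x, col (P g x) = col x) (hP : ∀ R ∈ ℛ, ∀ g x y, R (P g x) (P g y) ↔ R x y)
    (hSc : ∀ c, ∀ t ∈ Sb c, ∀ x : {x // p x = rep k c}, col (t x : {x // p x = rep k c}) = col x)
    (hS : ∀ R ∈ ℛ, ∀ c, ∀ t ∈ Sb c, ∀ x y : {x // p x = rep k c}, R (t x : {x // p x = rep k c}) (t y : {x // p x = rep k c}) ↔ R x y) :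
    WrG (SS k p Sb) (cl k) →* autR (insert (blkR p) ℛ) col :=
  (acSP P k p hp Sb).codRestrict (autR (insert (blkR p) ℛ) col) fun w => ⟨fun x => cS P k p hp Sb hcol hSc w x, fun R h => by
    rcases Set.mem_insert_iff.1 h with rfl | h
    · exact acS_blk P k p hp Sb w
    · exact acS_rel P k p hp Sb (hR R h) (hP R h) (hS R h) w⟩

end geo

/-- **Geometry.** -/
theorem mono_of_wrR {G X Ω : Type} [Group G] [Fintype G] [Fintype X] [Fintype Ω] (P : G →* Perm X) (k : G →* Perm Ω) (p : X → Ω)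
    (hp : ∀ g x, p (P g x) = k g (p x)) {C : Type} {col : X → C} {ℛ : Set (X → X → Prop)} (hR : ∀ R ∈ ℛ, ∀ x y, R x y → p x = p y)
    (ι : G →* autR (insert (blkR p) ℛ) col) (hι : ∀ g, ((ι g : autR (insert (blkR p) ℛ) col) : Perm X) = P g)
    (Sb : ∀ c : Orb k, Subgroup (Perm {x // p x = rep k c})) [∀ c, Fintype (Sb c)] [Fintype (Orb k)] [DecidableEq (Orb k)]
    (hSc : ∀ c, ∀ t ∈ Sb c, ∀ x : {x // p x = rep k c}, col (t x : {x // p x = rep k c}) = col x)
    (hS : ∀ R ∈ ℛ, ∀ c, ∀ t ∈ Sb c, ∀ x y : {x // p x = rep k c}, R (t x : {x // p x = rep k c}) (t y : {x // p x = rep k c}) ↔ R x y)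
    (hTS : ∀ c, Tb P k p hp (rep k c) ≤ Sb c) {f : G → ℂ} (h : MonoFn ((Pool.Agent.H43.GB.wrMap (kap P k p hp Sb hTS) (cl k)).comp (io P k p hp)) f) : MonoFn ι f := by
  classical
  have hcol : ∀ g x, col (P g x) = col x := fun g x => by
    rw [← hι]
    exact (ι g).2.1 x
  have hP : ∀ R ∈ ℛ, ∀ g x y, R (P g x) (P g y) ↔ R x y := fun R h g x y => by
    rw [← hι]
    exact (ι g).2.2 R (Set.mem_insert_of_mem _ h) x y
  have hs : (acSR P k p hp Sb hR hcol hP hSc hS).comp ((Pool.Agent.H43.GB.wrMap (kap P k p hp Sb hTS) (cl k)).comp (io P k p hp)) = ι := by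
    refine MonoidHom.ext fun g => Subtype.ext (Equiv.ext fun x => ?_)
    refine (ac_io P k p hp g x).trans ?_
    rw [hι]
  have h2 := monoPost h (acSR P k p hp Sb hR hcol hP hSc hS)
  rwa [hs] at h2

theorem allGdR_of_eq {Y : Type} [Fintype Y] {ℛ : Set (Y → Y → Prop)} {A B : Subgroup (Perm Y)} (h : A = B) (hB : ∀ [Fintype B], AllGdR ℛ B.subtype) [Fintype A] :
    AllGdR ℛ A.subtype := by
  subst h
  exact hB

/-- **Block systems.** -/
theorem allGdR_gb {G X Ω : Type} [Group G] [Fintype G] [Fintype X] [Fintype Ω] (P : G →* Perm X) (k : G →* Perm Ω) (p : X → Ω)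
    (hp : ∀ g x, p (P g x) = k g (p x)) (ℛ : Set (X → X → Prop)) (hR : ∀ R ∈ ℛ, ∀ x y, R x y → p x = p y)
    (hT : ∀ b [Fintype {x // p x = b}] [Fintype (fibH P k p hp b).range], AllGdR (resR ℛ p b) (fibH P k p hp b).range.subtype)
    (hk : ∀ H : Subgroup G, k.ker ≤ H → ∀ [Fintype H], AllGd (k.comp H.subtype)) : AllGdR (insert (blkR p) ℛ) P := by
  classical
  intro V _ _ _ ρ C col ι hι
  have hcol : ∀ g x, col (P g x) = col x := fun g x => by
    rw [← hι]
    exact (ι g).2.1 x
  have hP : ∀ R ∈ ℛ, ∀ g x y, R (P g x) (P g y) ↔ R x y := fun R h g x y => by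
    rw [← hι]
    exact (ι g).2.2 R (Set.mem_insert_of_mem _ h) x y
  let _ : Fintype (Orb k) := Fintype.ofFinite _
  let _ : ∀ b, Fintype {x // p x = b} := fun b => Fintype.ofFinite _
  let _ : ∀ b, Fintype (Tb P k p hp b) := fun b => Fintype.ofFinite _
  let Sb : ∀ c : Orb k, Subgroup (Perm {x // p x = rep k c}) := fun c => autR (resR ℛ p (rep k c)) fun x : {x // p x = rep k c} => col x
  let _ : ∀ c, Fintype (Sb c) := fun c => Fintype.ofFinite _
  have hSc : ∀ c, ∀ t ∈ Sb c, ∀ x : {x // p x = rep k c}, col (t x : {x // p x = rep k c}) = col x := fun c t ht x => ht.1 x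
  have hS : ∀ R ∈ ℛ, ∀ c, ∀ t ∈ Sb c, ∀ x y : {x // p x = rep k c}, R (t x : {x // p x = rep k c}) (t y : {x // p x = rep k c}) ↔ R x y :=
    fun R h c t ht x y => ht.2 _ ⟨R, h, rfl⟩ x y
  have hTS : ∀ c, Tb P k p hp (rep k c) ≤ Sb c := by
    rintro c _ ⟨g, rfl⟩
    refine ⟨fun x => hcol g x, ?_⟩
    rintro _ ⟨R, h, rfl⟩ x y
    exact hP R h g x y
  refine mono_of_wrR P k p hp hR ι hι Sb hSc hS hTS ?_
  refine Pool.Agent.H76.GB.wreathGB (TT' P k p hp) (SS k p Sb) Ω (Orb k) G (kap P k p hp Sb hTS) ?_ (cl k) (io P k p hp) ?_ V ρ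
  · intro W _ _ _ τ
    exact monoAllPi (Orb k) (fun c => Tb P k p hp (rep k c)) (fun c => Sb c) (fun c => Subgroup.inclusion (hTS c)) (fun c W _ _ _ τ =>
      allGdR_of_eq (Tb_eq P k p hp (rep k c)) (fun {_} => hT (rep k c)) W τ C (fun x => col x) (Subgroup.inclusion (hTS c)) fun t => rfl) W τ
  · intro H _ k' hker hk' W _ _ _ τ
    have h1 : k.ker ≤ H := fun g hg => hker g (Subtype.ext (MonoidHom.mem_ker.1 hg))
    have h2 : k' = k.comp H.subtype := MonoidHom.ext fun x => hk' x
    rw [h2]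
    exact hk H h1 W τ

/-- descent -/
theorem allGdR_desc {G Q X : Type} [Group G] [Fintype G] [Group Q] [Fintype Q] [Fintype X] {ℛ : Set (X → X → Prop)} (π : G →* Q) (hπ : Function.Surjective π)
    {k : Q →* Perm X} (h : AllGdR ℛ (k.comp π)) : AllGdR ℛ k := by
  classical
  intro V _ _ _ ρ C col ι hι
  let ρ' : Representation ℂ G V := MonoidHom.comp ρ π
  obtain ⟨l, hl⟩ := h V ρ' C col (ι.comp π) fun g => hι (π g)
  refine ⟨l, fun θ hθ => ?_⟩
  rw [← hl θ hθ]
  have h1 := ip_mean π hπ (fun q => θ (ι q)) ρ'.character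
  have h2 : mean π ρ'.character = ρ.character := funext fun q => mean_of π hπ (u := ρ.character) (fun x => rfl) q
  rw [h2] at h1
  exact h1.symm

/-- **Block systems, hereditary form.** -/
theorem hgr_step {G X Ω : Type} [Group G] [Fintype X] [Fintype Ω] (P : G →* Perm X) (k : G →* Perm Ω) (p : X → Ω) (hp : ∀ g x, p (P g x) = k g (p x))
    (ℛ : Set (X → X → Prop)) (hR : ∀ R ∈ ℛ, ∀ x y, R x y → p x = p y) (hT : ∀ b [Fintype {x // p x = b}], HGR (resR ℛ p b) (fibH P k p hp b)) (hk : HG k) :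
    HGR (insert (blkR p) ℛ) P := by
  classical
  intro H _ _ f
  refine allGdR_gb (P.comp f) (k.comp f) p (fun h x => hp (f h) x) ℛ hR (fun b _ _ => ?_) fun K _ _ => hk K (f.comp K.subtype)
  let _ : Fintype (fixP (k.comp f) b) := Fintype.ofFinite _
  refine allGdR_desc (fibH (P.comp f) (k.comp f) p (fun h x => hp (f h) x) b).rangeRestrict (MonoidHom.rangeRestrict_surjective _) ?_
  let φ : fixP (k.comp f) b →* fixP k b :=
    { toFun := fun s => ⟨f (s : H), s.2⟩
      map_one' := Subtype.ext (map_one f)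
      map_mul' := fun s t => Subtype.ext (map_mul f (s : H) (t : H)) }
  have h1 : AllGdR (resR ℛ p b) ((fibH P k p hp b).comp φ) := hT b (fixP (k.comp f) b) φ
  have h2 : (fibH (P.comp f) (k.comp f) p (fun h x => hp (f h) x) b).range.subtype.comp (fibH (P.comp f) (k.comp f) p (fun h x => hp (f h) x) b).rangeRestrict =
      (fibH P k p hp b).comp φ := MonoidHom.ext fun g => Equiv.ext fun x => rfl
  rw [h2]
  exact h1

/-- no relations -/
theorem hgr_empty {G X : Type} [Group G] [Fintype X] {P : G →* Perm X} (h : HG P) : HGR ∅ P := by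
  classical
  intro H _ _ f V _ _ _ ρ C col ι hι
  let j : colP col →* autR ∅ col :=
    { toFun := fun t => ⟨t, t.2, fun R hR => (Set.notMem_empty R hR).elim⟩
      map_one' := rfl
      map_mul' := fun _ _ => rfl }
  let ι' : H →* colP col := (P.comp f).codRestrict (colP col) fun g => by
    rw [← hι]
    exact (ι g).2.1
  have h1 := monoPost (h H f V ρ C col ι' fun g => rfl) j
  have h2 : j.comp ι' = ι := MonoidHom.ext fun g => Subtype.ext (hι g).symm
  rwa [h2] at h1

end Pool.Agent.H76.DW
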