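import Pool.Agent.H72.OD.TT0

/-!
# DW.W0 : iterated wreath products of symmetric groups, the statement
-/

open NumberField Module Polynomial
open Pool.Agent.H7.Artin

namespace Pool.Agent.H72.TT

/-- `P` is an isomorphism from `A` to the group of all permutations of `X` which preserve the colouring `col` and the equivalence relations of the list `l`, and each relation of
`l` is finer than the ones before: `A` is an iterated wreath product of symmetric groups, or a product of such groups (the automorphism group of a forest, `X` the set of its
leaves). -/
structure Nested {A X C : Type} [Group A] (P : A →* Equiv.Perm X) (col : X → C) (l : List (Setoid X)) : Prop where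
  injective : Function.Injective P
  finer : l.Pairwise fun s t => ∀ x y, t x y → s x y
  range : ∀ r : Equiv.Perm X, (∃ a, P a = r) ↔ (∀ x, col (r x) = col x) ∧ ∀ s ∈ l, ∀ x y, s (r x) (r y) ↔ s x y

/-- There is a chain of steps from the stabiliser of the point `x` to `S` which goes through the stabilisers of all the classes of `x`. -/
def Through {G X : Type} [Group G] (P : G →* Equiv.Perm X) (x : X) : List (Setoid X) → Subgroup G → Prop
  | [], S => ∀ T : Subgroup G, (∀ g, g ∈ T ↔ P g x = x) → Relation.ReflTransGen Step T S
  | s :: l, S => ∃ H : Subgroup G, (∀ g, g ∈ H ↔ s x (P g x)) ∧ Relation.ReflTransGen Step H S ∧ Through P x l H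

/-- **Iterated wreath products of symmetric groups.**  `Gal(L/F)` is the group of the permutations of a finite set `X` which preserve a colouring and a chain of equivalence
relations (`Nested`), for example the set of the roots of `f = g ∘ h`, with the colouring by the minimal polynomials and the relation `h(x) = h(y)`.  If for each `x` in `X` there
is a chain of steps from the stabiliser of `x` to `Gal(L/K)` through the stabilisers of the classes of `x` (a tower from `K` to `K(x)` which contains `K(h(x))`), then `Both K ρ`
for all representations `ρ` of `Gal(L/K)`. -/
def PartI : Prop :=
  ∀ (F L : Type) [Field F] [NumberField F] [Field L] [NumberField L] [Algebra F L] [IsGalois F L] (X C : Type) [Finite X] (P : Gal(L/F) →* Equiv.Perm X)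
    (col : X → C) (l : List (Setoid X)), Nested P col l → ∀ K : IntermediateField F L, (∀ x, Through (P.comp (res K)) x l ⊤) →
      ∀ (V : Type) [AddCommGroup V] [Module ℂ V] [FiniteDimensional ℂ V] (ρ : Representation ℂ (GalG K) V), Both K ρ

end Pool.Agent.H72.TT
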