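import Pool.Agent.H76.DW.W0
import Pool.Agent.H76.DW.Fld
import Pool.Agent.H72.OD.TT1

/-!
# DW.W1 : iterated wreath products of symmetric groups, the proof
-/

open NumberField Module Polynomial
open Pool.Agent.H7.Artin Pool.Agent.H58.S2 Pool.Agent.H72.HP Pool.Agent.H7.HB Pool.Agent.H72.EG Pool.Agent.H76.TD Pool.Agent.H28.TD Pool.Agent.H76.WR
open Pool.Agent.H72.OD Pool.Agent.H76.DW

namespace Pool.Agent.H72.TT

set_option linter.unusedSectionVars false

theorem Through.thr {G X : Type} [Group G] [Finite G] (P : G →* Equiv.Perm X) (x : X) (l : List (Setoid X)) : ∀ S : Subgroup G, Through P x l S → Thr P x l S := by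
  induction l with
  | nil =>
    intro S h
    exact Relation.ReflTransGen.mono (fun _ _ h => step_iff.1 h) _ _ (h (fixP P x) fun _ => Iff.rfl)
  | cons s l ih =>
    rintro S ⟨H, h1, h2, h3⟩
    exact ⟨H, h1, Relation.ReflTransGen.mono (fun _ _ h => step_iff.1 h) _ _ h2, ih H h3⟩

theorem partI : PartI := by
  classical
  intro F L _ _ _ _ _ _ X C _ P col l hN K hx V _ _ _ ρ
  let _ : Fintype X := Fintype.ofFinite X
  have hmem : ∀ g : Gal(L/F), P g ∈ autR (rels l) col := by
    intro g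
    obtain ⟨h1, h2⟩ := (hN.range (P g)).1 ⟨g, rfl⟩
    refine ⟨h1, ?_⟩
    rintro _ ⟨s, hs, rfl⟩ x y
    exact h2 s hs x y
  have h1 : HGR (rels l) (P.comp (res K)) := hgr_chain _ (P.comp (res K)) l rfl hN.finer (fun s hs g x y hxy =>
    ((hmem (res K g)).2 s.r ⟨s, hs, rfl⟩ x y).2 hxy) fun x => (hx x).thr
  let ι : GalG K →* autR (rels l) col := (P.comp (res K)).codRestrict _ fun g => hmem _
  have h2 : MonoFn ι ρ.character := h1 (GalG K) (MonoidHom.id _) V ρ C col ι fun g => rfl
  refine both_of (both_target P hN.injective (autR (rels l) col) (fun t ht => (hN.range t).2 ⟨ht.1, fun s hs x y => ht.2 s.r ⟨s, hs, rfl⟩ x y⟩) K ι (fun g => rfl)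
    (ρ : Representation ℂ Gal(L/K) V) h2)

end Pool.Agent.H72.TT
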